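import Pool.Agent.helper85.AQ.SpecB

/-! Row ta:BM6 (helper24, adapted from helper46's TD/M6): the moving lemma in residue characteristic different from l. -/

set_option autoImplicit false

namespace Pool.Agent.AQ

open Polynomial Pool.Agent.HC Pool.Agent.HC.SJ Pool.Agent.SJ Pool.Agent.GJ Pool.Agent.TK Pool.Agent.CM
open Pool.Agent.TQJ Pool.Agent.TQG
open Pool.Agent.FJ (VT Om chiO rf rs IsFrobO)
open Pool.Agent.TD (zK DvK bC mK IsPhiK Stab)
open scoped TensorProduct NumberField

noncomputable section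

theorem BM6 (h1 : BM1_stmt) (h2 : BM2_stmt) (h7 : KA7_stmt) : BM6_stmt := by
  intro K _ _ O l n _ _ hl μ a' a b _ _ h h' _ B c
  have hl0 : ((l : ℕ) : K) ≠ 0 := by
    intro h0
    have h3 : ((l : ℕ) : O) = 0 := by
      apply O.subtype_injective
      rw [map_natCast, map_zero]
      exact h0
    have h4 : ((l : ℕ) : rf O) = 0 := by
      have h5 := congrArg (rs O) h3
      rwa [map_natCast, map_zero] at h5
    exact NeZero.ne ((l : ℕ) : rf O) h4
  have : NeZero ((l : ℕ) : K) := ⟨hl0⟩
  -- inverses of sums of points over `O`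
  have hinv : ∀ T : Multiset (Pc O l μ a'), ∃ S : Multiset (Pc O l μ a'),
      (((T.map (mapPc O.subtype h)).map cl).prod : ClassGroup (CR K l μ a)) *
        ((S.map (mapPc O.subtype h)).map cl).prod = 1 ∧ ∀ q ∈ S, rs O q.1.1 ∉ B := by
    intro T
    induction T using Multiset.induction_on with
    | empty =>
      refine ⟨0, ?_, fun q hq => absurd hq (Multiset.notMem_zero q)⟩
      simp
    | cons q T ih =>
      obtain ⟨S, hS, hB⟩ := ih
      obtain ⟨S', hS', hB'⟩ := h1 K O l n hl μ a' a b h h' B (mapPc O.subtype h q) q.1.1.2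
      refine ⟨S' + S, ?_, fun p hp => ?_⟩
      · rw [Multiset.map_cons, Multiset.map_cons, Multiset.prod_cons, Multiset.map_add,
          Multiset.map_add, Multiset.prod_add, mul_mul_mul_comm, hS', hS, one_mul]
      · rcases Multiset.mem_add.1 hp with hp | hp
        · exact hB' p hp
        · exact hB p hp
  have hpt : ∀ q0 : Pc K l μ a, ∃ S : Multiset (Pc O l μ a'),
      cl q0 = ((S.map (mapPc O.subtype h)).map cl).prod ∧ ∀ q ∈ S, rs O q.1.1 ∉ B := by
    intro q0
    have h3 : ∃ T : Multiset (Pc O l μ a'), cl q0 * ((T.map (mapPc O.subtype h)).map cl).prod = 1 := by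
      by_cases hq : q0.1.1 ∈ O
      · obtain ⟨T, hT, -⟩ := h1 K O l n hl μ a' a b h h' B q0 hq
        exact ⟨T, hT⟩
      · exact h2 K O l n hl μ a' a b h h' q0 hq
    obtain ⟨T, hT⟩ := h3
    obtain ⟨S, hS, hB⟩ := hinv T
    refine ⟨S, ?_, hB⟩
    have h4 := eq_inv_of_mul_eq_one_left hT
    have h5 := eq_inv_of_mul_eq_one_right hS
    rw [h4, h5]
  obtain ⟨S0, rfl⟩ := (h7 K l n μ a).2.1 c
  induction S0 using Multiset.induction_on with
  | empty =>
    refine ⟨0, ?_, fun q hq => absurd hq (Multiset.notMem_zero q)⟩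
    simp
  | cons q T ih =>
    obtain ⟨S, hS, hB⟩ := ih
    obtain ⟨S', hS', hB'⟩ := hpt q
    refine ⟨S' + S, ?_, fun p hp => ?_⟩
    · rw [Multiset.map_cons, Multiset.prod_cons, Multiset.map_add, Multiset.map_add,
        Multiset.prod_add, hS', hS]
    · rcases Multiset.mem_add.1 hp with hp | hp
      · exact hB' p hp
      · exact hB p hp

end

end Pool.Agent.AQ
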