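import Pool.Agent.helper85.AQ.SpecL
import Pool.Agent.helper39.GJ.SpecL

/-! Row ta:LPB (helper24): base change of the exterior algebra of the product `∏ V_i^(e_i) × W`. -/

set_option autoImplicit false

namespace Pool.Agent.AQ

open Pool.Agent.GJ
open scoped TensorProduct

noncomputable section

/-- the isomorphism `Ω ⊗ (∏ V_i^(e_i) × W) = ∏ (Ω ⊗ V_i)^(e_i) × Ω ⊗ W` -/
def LPB_c (k Ω : Type) [Field k] [Field Ω] [Algebra k Ω] (r : ℕ) (V : Fin r → Type) [∀ i, AddCommGroup (V i)]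
    [∀ i, Module k (V i)] (e : Fin r → ℕ) (W : Type) [AddCommGroup W] [Module k W] :
    (Ω ⊗[k] ((∀ i, Fin (e i) → V i) × W)) ≃ₗ[Ω] ((∀ i, Fin (e i) → Ω ⊗[k] V i) × (Ω ⊗[k] W)) :=
  (TensorProduct.prodRight k Ω Ω (∀ i, Fin (e i) → V i) W).trans
    (LinearEquiv.prodCongr
      ((TensorProduct.piRight k Ω Ω (fun i => Fin (e i) → V i)).trans
        (LinearEquiv.piCongrRight fun i => TensorProduct.piRight k Ω Ω (fun _ : Fin (e i) => V i)))
      (LinearEquiv.refl Ω (Ω ⊗[k] W)))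

theorem LPB_c_tmul (k Ω : Type) [Field k] [Field Ω] [Algebra k Ω] (r : ℕ) (V : Fin r → Type) [∀ i, AddCommGroup (V i)]
    [∀ i, Module k (V i)] (e : Fin r → ℕ) (W : Type) [AddCommGroup W] [Module k W] (ω : Ω)
    (x : (∀ i, Fin (e i) → V i) × W) :
    LPB_c k Ω r V e W (ω ⊗ₜ[k] x) = (fun i c => ω ⊗ₜ[k] x.1 i c, ω ⊗ₜ[k] x.2) := rfl

theorem LPB_nat (k Ω : Type) [Field k] [Field Ω] [Algebra k Ω] (r : ℕ) (V : Fin r → Type) [∀ i, AddCommGroup (V i)]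
    [∀ i, Module k (V i)] (e : Fin r → ℕ) (W : Type) [AddCommGroup W] [Module k W]
    (A : ∀ i, V i →ₗ[k] V i) (B : W →ₗ[k] W) :
    (LPB_c k Ω r V e W : _ →ₗ[Ω] _) ∘ₗ (LinearMap.prodMap (dia e A) B).baseChange Ω =
      (LinearMap.prodMap (dia (V := fun i => Ω ⊗[k] V i) e fun i => (A i).baseChange Ω) (B.baseChange Ω)) ∘ₗ
        (LPB_c k Ω r V e W : _ →ₗ[Ω] _) := by
  apply TensorProduct.AlgebraTensorModule.ext
  intro ω x
  rw [LinearMap.comp_apply, LinearMap.comp_apply, LinearMap.baseChange_tmul, LinearEquiv.coe_coe, LPB_c_tmul,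
    LPB_c_tmul]
  rfl

theorem LPB_deg {Ω M N : Type} [Field Ω] [AddCommGroup M] [Module Ω M] [AddCommGroup N] [Module Ω N]
    (f : M →ₗ[Ω] N) (d : ℕ) (X : ExteriorAlgebra Ω M)
    (hX : X ∈ (⋀[Ω]^d M : Submodule Ω (ExteriorAlgebra Ω M))) :
    ExteriorAlgebra.map f X ∈ (⋀[Ω]^d N : Submodule Ω (ExteriorAlgebra Ω N)) := by
  have h1 : ExteriorAlgebra.map f X ∈
      ((LinearMap.range (ExteriorAlgebra.ι Ω : M →ₗ[Ω] ExteriorAlgebra Ω M)) ^ d).map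
        (ExteriorAlgebra.map f).toLinearMap := Submodule.mem_map_of_mem hX
  rw [Submodule.map_pow] at h1
  have h2 : (LinearMap.range (ExteriorAlgebra.ι Ω : M →ₗ[Ω] ExteriorAlgebra Ω M)).map
      (ExteriorAlgebra.map f).toLinearMap ≤ LinearMap.range (ExteriorAlgebra.ι Ω : N →ₗ[Ω] ExteriorAlgebra Ω N) := by
    rintro _ ⟨_, ⟨m, rfl⟩, rfl⟩
    exact ⟨f m, (ExteriorAlgebra.map_apply_ι f m).symm⟩
  have h3 : ((LinearMap.range (ExteriorAlgebra.ι Ω : M →ₗ[Ω] ExteriorAlgebra Ω M)).map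
      (ExteriorAlgebra.map f).toLinearMap) ^ d ≤
      (LinearMap.range (ExteriorAlgebra.ι Ω : N →ₗ[Ω] ExteriorAlgebra Ω N)) ^ d := pow_le_pow_left' h2 d
  exact h3 h1

theorem LPB (hLBC : LBC_stmt) (hL10 : GJ.L10_stmt) : LPB_stmt := by
  intro k Ω _ _ _ r V _ _ _ e W _ _ _
  obtain ⟨b0, hinj, -, -, -, hdeg, hnat⟩ := hLBC k Ω ((∀ i, Fin (e i) → V i) × W)
  let c : (Ω ⊗[k] ((∀ i, Fin (e i) → V i) × W)) →ₗ[Ω] ((∀ i, Fin (e i) → Ω ⊗[k] V i) × (Ω ⊗[k] W)) :=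
    (LPB_c k Ω r V e W : _ →ₗ[Ω] _)
  have hc : Function.Injective (ExteriorAlgebra.map c) := by
    apply ExteriorAlgebra.map_injective
    exact ⟨((LPB_c k Ω r V e W).symm : _ →ₗ[Ω] _), LinearMap.ext fun x => (LPB_c k Ω r V e W).symm_apply_apply x⟩
  refine ⟨((ExteriorAlgebra.map c).toLinearMap.restrictScalars k) ∘ₗ b0, ?_, ?_, ?_⟩
  · intro X Y hXY
    exact hinj (hc hXY)
  · intro d X hX
    exact LPB_deg c d (b0 X) (hdeg d X hX)
  · intro A B X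
    have hn := LPB_nat k Ω r V e W A B
    obtain ⟨h1, h2⟩ := hnat (LinearMap.prodMap (dia e A) B) X
    constructor
    · change ExteriorAlgebra.map c (b0 _) = ExteriorAlgebra.map _ (ExteriorAlgebra.map c (b0 X))
      rw [h1]
      have h3 := AlgHom.congr_fun (ExteriorAlgebra.map_comp_map
        ((LinearMap.prodMap (dia e A) B).baseChange Ω) c) (b0 X)
      have h4 := AlgHom.congr_fun (ExteriorAlgebra.map_comp_map c
        (LinearMap.prodMap (dia (V := fun i => Ω ⊗[k] V i) e fun i => (A i).baseChange Ω) (B.baseChange Ω))) (b0 X)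
      rw [AlgHom.comp_apply] at h3 h4
      rw [h3, h4]
      rw [show c ∘ₗ (LinearMap.prodMap (dia e A) B).baseChange Ω = _ from hn]
    · change ExteriorAlgebra.map c (b0 _) = dX _ (ExteriorAlgebra.map c (b0 X))
      rw [h2]
      exact (hL10 Ω (Ω ⊗[k] ((∀ i, Fin (e i) → V i) × W))).2.2.2.2.2.2 _ c _ _ hn (b0 X)

end

end Pool.Agent.AQ
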