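import Pool.Agent.helper85.AQ.SpecL
import Pool.Agent.helper39.GJ.SpecL

/-! Row ta:LSC (helper24): the operators which act by scalars on the eigenspaces of `H` in the exterior algebra. -/

set_option autoImplicit false

namespace Pool.Agent.AQ

open Pool.Agent.GJ
open scoped TensorProduct

noncomputable section

theorem LSC_deg {Ω M N : Type} [Field Ω] [AddCommGroup M] [Module Ω M] [AddCommGroup N] [Module Ω N]
    (f : M →ₗ[Ω] N) (d : ℕ) (X : ExteriorAlgebra Ω M)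
    (hX : X ∈ (⋀[Ω]^d M : Submodule Ω (ExteriorAlgebra Ω M))) :
    ExteriorAlgebra.map f X ∈ (⋀[Ω]^d N : Submodule Ω (ExteriorAlgebra Ω N)) := by
  have h1 : ExteriorAlgebra.map f X ∈
      ((LinearMap.range (ExteriorAlgebra.ι Ω : M →ₗ[Ω] ExteriorAlgebra Ω M)) ^ d).map
        (ExteriorAlgebra.map f).toLinearMap := Submodule.mem_map_of_mem hX
  rw [Submodule.map_pow] at h1
  have h2 : (LinearMap.range (ExteriorAlgebra.ι Ω : M →ₗ[Ω] ExteriorAlgebra Ω M)).map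
      (ExteriorAlgebra.map f).toLinearMap ≤ LinearMap.range (ExteriorAlgebra.ι Ω : N →ₗ[Ω] ExteriorAlgebra Ω N) := by
    rintro _ ⟨_, ⟨m, rfl⟩, rfl⟩
    exact ⟨f m, (ExteriorAlgebra.map_apply_ι f m).symm⟩
  have h3 : ((LinearMap.range (ExteriorAlgebra.ι Ω : M →ₗ[Ω] ExteriorAlgebra Ω M)).map
      (ExteriorAlgebra.map f).toLinearMap) ^ d ≤
      (LinearMap.range (ExteriorAlgebra.ι Ω : N →ₗ[Ω] ExteriorAlgebra Ω N)) ^ d := pow_le_pow_left' h2 d
  exact h3 h1

section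
variable {Ω : Type} [Field Ω] {k : ℕ} {V : Fin k → Type} [∀ i, AddCommGroup (V i)] [∀ i, Module Ω (V i)]
  (e : Fin k → ℕ)

theorem LSC_add (A B : ∀ i, V i →ₗ[Ω] V i) : dia e (fun i => A i + B i) = dia e A + dia e B := rfl

theorem LSC_smul (c : Ω) (A : ∀ i, V i →ₗ[Ω] V i) : dia e (fun i => c • A i) = c • dia e A := rfl

theorem LSC_comp (A B : ∀ i, V i →ₗ[Ω] V i) : dia e (fun i => A i ∘ₗ B i) = dia e A ∘ₗ dia e B := rfl

theorem LSC_brk (A B : ∀ i, V i →ₗ[Ω] V i) : dia e (fun i => A i ∘ₗ B i - B i ∘ₗ A i) =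
    dia e A ∘ₗ dia e B - dia e B ∘ₗ dia e A := rfl

theorem LSC_id : dia e (fun i => (LinearMap.id : V i →ₗ[Ω] V i)) = LinearMap.id := rfl

end

theorem LSC (hL10 : GJ.L10_stmt) : LSC_stmt := by
  intro Ω H _ k V _ _ _ e d0 ρ
  obtain ⟨-, -, -, hadd, hsmul, hbrk, hnat⟩ := hL10 Ω (∀ i, Fin (e i) → V i)
  refine ⟨?_, ?_⟩
  · intro A B c hA hB
    have hkill : ∀ d ≤ d0, ∀ κ : H → Ω, ∀ Y ∈ (⋀[Ω]^d (∀ i, Fin (e i) → V i) : Submodule Ω (ExteriorAlgebra Ω (∀ i, Fin (e i) → V i))),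
        (∀ h, ExteriorAlgebra.map (dia e (ρ h)) Y = κ h • Y) → dX (dia e fun i => A i ∘ₗ B i - B i ∘ₗ A i) Y = 0 := by
      intro d hd κ Y hY hκ
      obtain ⟨a, ha⟩ := hA d hd κ
      obtain ⟨b, hb⟩ := hB d hd κ
      rw [LSC_brk, hbrk, ha Y hY hκ, hb Y hY hκ, map_smul, map_smul, ha Y hY hκ, hb Y hY hκ, smul_comm, sub_self]
    refine ⟨?_, ?_, ?_, hkill⟩
    · intro d hd κ
      obtain ⟨a, ha⟩ := hA d hd κ
      obtain ⟨b, hb⟩ := hB d hd κ
      refine ⟨a + b, fun Y hY hκ => ?_⟩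
      rw [LSC_add, hadd, ha Y hY hκ, hb Y hY hκ, add_smul]
    · intro d hd κ
      obtain ⟨a, ha⟩ := hA d hd κ
      refine ⟨c * a, fun Y hY hκ => ?_⟩
      rw [LSC_smul, hsmul, ha Y hY hκ, mul_smul]
    · intro d hd κ
      exact ⟨0, fun Y hY hκ => by rw [hkill d hd κ Y hY hκ, zero_smul]⟩
  · intro g π hg A hA d hd κ
    obtain ⟨c, hc⟩ := hA d hd (fun h => κ (π.symm h))
    refine ⟨c, fun Y hY hκ => ?_⟩
    -- the inverse
    have hgi : ∀ h i, ρ h i ∘ₗ ((g i).symm : V i →ₗ[Ω] V i) = ((g i).symm : V i →ₗ[Ω] V i) ∘ₗ ρ (π.symm h) i := by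
      intro h i
      have h1 := hg (π.symm h) i
      rw [Equiv.apply_symm_apply] at h1
      apply LinearMap.ext
      intro x
      have h2 := LinearMap.congr_fun h1 ((g i).symm x)
      simp only [LinearMap.comp_apply, LinearEquiv.coe_coe, LinearEquiv.apply_symm_apply] at h2 ⊢
      rw [h2, LinearEquiv.symm_apply_apply]
    have hmap : ∀ (F F' : (∀ i, Fin (e i) → V i) →ₗ[Ω] (∀ i, Fin (e i) → V i)) (x : ExteriorAlgebra Ω (∀ i, Fin (e i) → V i)),
        ExteriorAlgebra.map F (ExteriorAlgebra.map F' x) = ExteriorAlgebra.map (F ∘ₗ F') x := by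
      intro F F' x
      exact AlgHom.congr_fun (ExteriorAlgebra.map_comp_map F' F) x
    have hX : ∀ h, ExteriorAlgebra.map (dia e (ρ h)) (ExteriorAlgebra.map (dia e fun i => ((g i).symm : V i →ₗ[Ω] V i)) Y) =
        κ (π.symm h) • ExteriorAlgebra.map (dia e fun i => ((g i).symm : V i →ₗ[Ω] V i)) Y := by
      intro h
      rw [hmap, ← LSC_comp, show (fun i => ρ h i ∘ₗ ((g i).symm : V i →ₗ[Ω] V i)) =
        fun i => ((g i).symm : V i →ₗ[Ω] V i) ∘ₗ ρ (π.symm h) i from funext (hgi h), LSC_comp, ← hmap, hκ, map_smul]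
    have h1 := hc _ (LSC_deg _ d Y hY) hX
    have h2 := hnat (∀ i, Fin (e i) → V i) (dia e fun i => (g i : V i →ₗ[Ω] V i)) (dia e A)
      (dia e fun i => cj (g i) (A i)) (by
        rw [← LSC_comp, ← LSC_comp]
        have h3 : (fun i => (g i : V i →ₗ[Ω] V i) ∘ₗ A i) = fun i => cj (g i) (A i) ∘ₗ (g i : V i →ₗ[Ω] V i) := by
          funext i
          apply LinearMap.ext
          intro x
          simp only [cj, LinearMap.comp_apply, LinearEquiv.coe_coe, LinearEquiv.symm_apply_apply]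
        rw [h3]) (ExteriorAlgebra.map (dia e fun i => ((g i).symm : V i →ₗ[Ω] V i)) Y)
    have h4 : ExteriorAlgebra.map (dia e fun i => (g i : V i →ₗ[Ω] V i))
        (ExteriorAlgebra.map (dia e fun i => ((g i).symm : V i →ₗ[Ω] V i)) Y) = Y := by
      rw [hmap, ← LSC_comp]
      have h5 : (fun i => (g i : V i →ₗ[Ω] V i) ∘ₗ ((g i).symm : V i →ₗ[Ω] V i)) = fun i => LinearMap.id := by
        funext i
        apply LinearMap.ext
        intro x
        simp only [LinearMap.comp_apply, LinearEquiv.coe_coe, LinearEquiv.apply_symm_apply, LinearMap.id_apply]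
      rw [h5, LSC_id, ExteriorAlgebra.map_id, AlgHom.id_apply]
    rw [h4, h1, map_smul, h4] at h2
    exact h2.symm

end

end Pool.Agent.AQ
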